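import Mathlib
import Pool.Agent.H.MP_b0ed8d_nt.F50

namespace Pool.Agent.Results.MP_2ab2dc_nt.No

open Pool.Agent.H.MP_b0ed8d_nt

/-- number of lattice points enclosed by the circle `S_k` -/
noncomputable def f (k : ℕ) : ℕ :=
  (enc (1 / 2) (1 / 2) (√((k : ℝ) ^ 2 + k + 1 / 2))).ncard

lemma f50 : f 50 = 8000 := by
  have h1 : enc (1 / 2) (1 / 2) (√(((50 : ℕ) : ℝ) ^ 2 + (50 : ℕ) + 1 / 2))
      = encq (1 / 2) (1 / 2) (5101 / 2) := by
    simp only [enc, encq]
    rw [Real.sq_sqrt (by positivity)]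
    norm_num
  have h2 := center_count 2 10202 106 102 (105, 105) (by norm_num) (by decide +kernel)
    (1 / 2 + (52 : ℤ)) (1 / 2 + (52 : ℤ)) (5101 / 2) (by norm_num) (by norm_num) (by norm_num)
  have h3 : (grid 106).countP (fun p => Nat.blt (d2 2 (105, 105) p) 10202) = 8000 := by
    decide +kernel
  rw [encq_trans, h3] at h2
  rw [f, h1, Set.ncard_def, h2, ENat.toNat_coe]

theorem result : ¬ ∀ k : ℕ, 1 ≤ k → IsMC (f k) := by
  intro h
  have := h 50 (by norm_num)
  rw [f50] at this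
  exact f50_non this

end Pool.Agent.Results.MP_2ab2dc_nt.No
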